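import Mathlib

/-!
# Chains of connected open sets and frontiers of components
-/

set_option autoImplicit false

namespace Pool.Agent.R815.HLC

open Topology Set

variable {X : Type*} [TopologicalSpace X]

/-- The chain lemma. -/
theorem chain (P : Set X → Prop) (hPo : ∀ V, P V → IsOpen V)
    (hP : ∀ V W, P V → P W → (V ∩ W).Nonempty → P (V ∪ W))
    {U : Set X} (hU : IsPreconnected U) (hloc : ∀ y ∈ U, ∃ W, y ∈ W ∧ P W)
    {x y : X} (hx : x ∈ U) (hy : y ∈ U) : ∃ V, P V ∧ x ∈ V ∧ y ∈ V := by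
  classical
  let S : Set X := ⋃₀ {V | P V ∧ x ∈ V}
  let S' : Set X := ⋃₀ {W | P W ∧ Disjoint W S}
  have hS : IsOpen S := isOpen_sUnion fun V hV => hPo V hV.1
  have hS' : IsOpen S' := isOpen_sUnion fun V hV => hPo V hV.1
  have hd : Disjoint S S' := by
    rw [Set.disjoint_left]
    rintro z hz ⟨W, ⟨-, hW⟩, hzW⟩
    exact Set.disjoint_left.1 hW hzW hz
  have hcov : U ⊆ S ∪ S' := by
    intro z hz
    obtain ⟨W, hzW, hW⟩ := hloc z hz
    by_cases h : Disjoint W S
    · exact Or.inr ⟨W, ⟨hW, h⟩, hzW⟩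
    · left
      rw [Set.not_disjoint_iff] at h
      obtain ⟨t, htW, V, ⟨hV, hxV⟩, htV⟩ := h
      exact ⟨V ∪ W, ⟨hP V W hV hW ⟨t, htV, htW⟩, Or.inl hxV⟩, Or.inr hzW⟩
  have hxS : (U ∩ S).Nonempty := by
    obtain ⟨W, hxW, hW⟩ := hloc x hx
    exact ⟨x, hx, W, ⟨hW, hxW⟩, hxW⟩
  have hsub := hU.subset_left_of_subset_union hS hS' hd hcov hxS
  obtain ⟨V, ⟨hV, hxV⟩, hyV⟩ := hsub hy
  exact ⟨V, hV, hxV, hyV⟩

/-- Every point of an open set has a connected open neighbourhood with closure inside. -/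
theorem exists_nhd_closure [LocallyConnectedSpace X] [RegularSpace X] {U : Set X} (hU : IsOpen U)
    {x : X} (hx : x ∈ U) : ∃ V, IsOpen V ∧ IsConnected V ∧ closure V ⊆ U ∧ x ∈ V := by
  obtain ⟨W, hW, hWc, hWU⟩ := exists_mem_nhds_isClosed_subset (hU.mem_nhds hx)
  obtain ⟨V, ⟨hVo, hxV, hVc⟩, hVW⟩ :=
    (LocallyConnectedSpace.open_connected_basis x).mem_iff.1 hW
  exact ⟨V, hVo, hVc, (closure_minimal hVW hWc).trans hWU, hxV⟩

/-- Two points of a connected open set lie in a connected open set with closure inside. -/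
theorem shrink [LocallyConnectedSpace X] [RegularSpace X] {U : Set X} (hU : IsOpen U)
    (hUc : IsPreconnected U) {x y : X} (hx : x ∈ U) (hy : y ∈ U) :
    ∃ V, IsOpen V ∧ IsConnected V ∧ closure V ⊆ U ∧ x ∈ V ∧ y ∈ V := by
  obtain ⟨V, ⟨h1, h2, h3⟩, h4, h5⟩ := chain
    (fun V : Set X => IsOpen V ∧ IsConnected V ∧ closure V ⊆ U) (fun V h => h.1)
    (fun V W hV hW hVW => ⟨hV.1.union hW.1, IsConnected.union hVW hV.2.1 hW.2.1, by
      rw [closure_union]
      exact union_subset hV.2.2 hW.2.2⟩) hUc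
    (fun z hz => by
      obtain ⟨V, h1, h2, h3, h4⟩ := exists_nhd_closure hU hz
      exact ⟨V, h4, h1, h2, h3⟩) hx hy
  exact ⟨V, h1, h2, h3, h4, h5⟩

theorem shrink₃ [LocallyConnectedSpace X] [RegularSpace X] {U : Set X} (hU : IsOpen U)
    (hUc : IsPreconnected U) {x y z : X} (hx : x ∈ U) (hy : y ∈ U) (hz : z ∈ U) :
    ∃ V, IsOpen V ∧ IsConnected V ∧ closure V ⊆ U ∧ x ∈ V ∧ y ∈ V ∧ z ∈ V := by
  obtain ⟨V, h1, h2, h3, h4, h5⟩ := shrink hU hUc hx hy
  obtain ⟨W, k1, k2, k3, k4, k5⟩ := shrink hU hUc hx hz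
  exact ⟨V ∪ W, h1.union k1, IsConnected.union ⟨x, h4, k4⟩ h2 k2,
    by rw [closure_union]; exact union_subset h3 k3, Or.inl h4, Or.inl h5, Or.inr k5⟩

/-- components of open sets are relatively closed -/
theorem closure_component_inter [LocallyConnectedSpace X] {U : Set X} (hU : IsOpen U) {x z : X}
    (hz : z ∈ closure (connectedComponentIn U x)) (hzU : z ∈ U) :
    z ∈ connectedComponentIn U x := by
  have h1 : IsOpen (connectedComponentIn U z) := hU.connectedComponentIn
  have h2 : z ∈ connectedComponentIn U z := mem_connectedComponentIn hzU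
  obtain ⟨t, ht1, ht2⟩ := mem_closure_iff.1 hz _ h1 h2
  have e1 := connectedComponentIn_eq ht1
  have e2 := connectedComponentIn_eq ht2
  rw [e2, ← e1]
  exact h2

/-- A component of `C \ F` has frontier points on `F`, when the connected open set `C` meets the
closed set `F`. -/
theorem exists_frontier [LocallyConnectedSpace X] {C F : Set X} (hC : IsPreconnected C)
    (hCo : IsOpen C) (hF : IsClosed F) {x : X} (hx : x ∈ C) (hxF : x ∉ F)
    (hCF : (C ∩ F).Nonempty) :
    ∃ q ∈ C ∩ F, q ∈ closure (connectedComponentIn (C \ F) x) := by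
  by_contra hno
  push Not at hno
  have hop : IsOpen (C \ F) := hCo.sdiff hF
  have hK : IsOpen (connectedComponentIn (C \ F) x) := hop.connectedComponentIn
  have hcov : C ⊆ connectedComponentIn (C \ F) x ∪ (closure (connectedComponentIn (C \ F) x))ᶜ := by
    intro z hz
    by_cases h : z ∈ closure (connectedComponentIn (C \ F) x)
    · left
      by_cases hzF : z ∈ F
      · exact absurd h (hno z ⟨hz, hzF⟩)
      · exact closure_component_inter hop h ⟨hz, hzF⟩
    · exact Or.inr h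
  have hxK : x ∈ connectedComponentIn (C \ F) x := mem_connectedComponentIn ⟨hx, hxF⟩
  have hsub := hC.subset_left_of_subset_union hK isClosed_closure.isOpen_compl
    (Set.disjoint_left.2 fun z hz hz' => hz' (subset_closure hz)) hcov ⟨x, hx, hxK⟩
  obtain ⟨z, hzC, hzF⟩ := hCF
  exact (connectedComponentIn_subset _ _ (hsub hzC)).2 hzF

end Pool.Agent.R815.HLC
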