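import Pool.Agent.R815.HLC.Step

/-!
# A countable set whose complement satisfies condition `(R₂)`
-/

set_option autoImplicit false

namespace Pool.Agent.R815.HLC

open Topology Set

variable {X : Type*} [MetricSpace X] [LocallyConnectedSpace X] [SecondCountableTopology X]

/-- A connected set is cut from a point off its closure by countably many points. -/
theorem cut (hX : HLC X) {A : Set X} (hA : IsConnected A) {b : X} (hb : b ∉ closure A) :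
    ∃ E : Set X, E.Countable ∧ b ∉ E ∧ ∀ N ⊆ Eᶜ, IsConnected N → b ∈ N → N ∩ A = ∅ := by
  classical
  by_contra hno
  push Not at hno
  have hbA : b ∉ A := fun h => hb (subset_closure h)
  have hJ : Joined A b univ := by
    intro E hE hbE
    obtain ⟨N, h1, h2, h3, h4⟩ := hno E hE hbE
    exact ⟨N, fun z hz => ⟨trivial, h1 hz⟩, h2, h3, h4⟩
  have hstep : ∀ (G : {G : Set X // IsOpen G ∧ Joined A b G}) (n : ℕ), ∃ T : Set X,
      IsOpen T ∧ IsConnected T ∧ T ⊆ G.1 ∧ (T ∩ Metric.ball b (1 / (n + 1))).Nonempty ∧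
      (T ∩ A).Nonempty ∧ b ∉ closure T ∧ Joined A b (G.1 \ closure T) :=
    fun G n => step hX hbA G.2.1 G.2.2 Metric.isOpen_ball (Metric.mem_ball_self (by positivity))
  choose T hTo hTc hTG hTb hTA hTcl hTJ using hstep
  let G : ℕ → {G : Set X // IsOpen G ∧ Joined A b G} := fun n => Nat.rec ⟨univ, isOpen_univ, hJ⟩
    (fun n G => ⟨G.1 \ closure (T G n), G.2.1.sdiff isClosed_closure, hTJ G n⟩) n
  have hG : ∀ n, (G (n + 1)).1 = (G n).1 \ closure (T (G n) n) := fun n => rfl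
  have hanti : ∀ m n, m ≤ n → (G n).1 ⊆ (G m).1 := by
    intro m n hmn
    induction n, hmn using Nat.le_induction with
    | base => exact subset_rfl
    | succ n _ ih => exact fun z hz => ih (by rw [hG] at hz; exact hz.1)
  let S : ℕ → Set X := fun n => T (G n) n
  have hSd : ∀ m n, m < n → Disjoint (S m) (S n) := by
    intro m n hmn
    rw [Set.disjoint_left]
    intro z hz hz'
    have h1 := hanti (m + 1) n hmn (hTG _ _ hz')
    rw [hG] at h1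
    exact h1.2 (subset_closure hz)
  have hSne : ∀ n, (S n).Nonempty := fun n => (hTc _ _).nonempty
  have hSinj : Function.Injective S := by
    intro m n hmn
    by_contra hne
    rcases lt_or_gt_of_ne hne with h | h
    · have := hSd m n h
      rw [hmn, disjoint_self] at this
      exact (hSne n).ne_empty this
    · have := hSd n m h
      rw [hmn, disjoint_self] at this
      exact (hSne n).ne_empty this
  obtain ⟨O, hO, hbO, hfin⟩ := locally_finite_at hX hA hb (range S)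
    (by rintro _ ⟨n, rfl⟩; exact hTo _ _) (by rintro _ ⟨n, rfl⟩; exact hTc _ _)
    (by rintro _ ⟨n, rfl⟩; exact hTA _ _)
    (by
      rintro _ ⟨m, rfl⟩ _ ⟨n, rfl⟩ hne
      rcases lt_trichotomy m n with h | h | h
      · exact hSd m n h
      · exact absurd (congrArg S h) hne
      · exact (hSd n m h).symm)
  obtain ⟨ε, hε, hεO⟩ := Metric.isOpen_iff.1 hO b hbO
  obtain ⟨n₀, hn₀⟩ := exists_nat_one_div_lt hε
  have hsub : S '' (Ici n₀) ⊆ {T ∈ range S | (T ∩ O).Nonempty} := by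
    rintro _ ⟨n, hn, rfl⟩
    refine ⟨⟨n, rfl⟩, ?_⟩
    obtain ⟨z, hz1, hz2⟩ := hTb (G n) n
    refine ⟨z, hz1, hεO ?_⟩
    rw [Metric.mem_ball] at hz2 ⊢
    refine hz2.trans (lt_of_le_of_lt ?_ hn₀)
    apply one_div_le_one_div_of_le (by positivity)
    have : (n₀ : ℝ) ≤ n := by exact_mod_cast (show n₀ ≤ n from hn)
    linarith
  exact (Set.Ici_infinite n₀).image hSinj.injOn (hfin.subset hsub)

/-- Separating a connected closed set from a set, when its points can be separated. -/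
theorem ps' (hX : HLC X) {A Y D : Set X} (hA : IsConnected A) (hAc : IsClosed A) (hDY : D ⊆ Y)
    (hD : ∀ a ∈ A ∩ Y, ∃ V V', Pair Y V V' ∧ a ∈ V ∧ D ⊆ V') :
    ∃ V V', Pair Y V V' ∧ A ∩ Y ⊆ V ∧ D ⊆ V' := by
  classical
  let I := {q : Set X × Set X // Pair Y q.1 q.2 ∧ D ⊆ q.2}
  let i₀ : I := ⟨(∅, univ), ⟨isOpen_empty, isOpen_univ, disjoint_bot_left, by simp⟩, subset_univ _⟩
  obtain ⟨S, hS, hSu⟩ := TopologicalSpace.isOpen_iUnion_countable (fun q : I => q.1.1)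
    (fun q => q.2.1.1)
  obtain ⟨g, hg⟩ := (hS.insert i₀).exists_eq_range ⟨i₀, mem_insert _ _⟩
  obtain ⟨V, V', hV, hAV, hVU⟩ := ps hX hA hAc (fun n => (g n).1.1) (fun n => (g n).1.2)
    (fun n => (g n).2.1) (by
      intro a ha
      obtain ⟨V, V', hV, haV, hDV⟩ := hD a ha
      have h1 : a ∈ ⋃ i ∈ S, (fun q : I => q.1.1) i := by
        rw [hSu]
        exact mem_iUnion.2 ⟨⟨(V, V'), hV, hDV⟩, haV⟩
      obtain ⟨i, hi, hai⟩ := mem_iUnion₂.1 h1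
      have h2 : i ∈ insert i₀ S := Or.inr hi
      rw [hg] at h2
      obtain ⟨n, rfl⟩ := h2
      exact mem_iUnion.2 ⟨n, hai⟩)
  refine ⟨V, V', hV, hAV, ?_⟩
  intro d hd
  refine (hV.2.2.2 (hDY hd)).resolve_left ?_
  intro hdV
  obtain ⟨n, hn⟩ := mem_iUnion.1 (hVU hdV)
  exact Set.disjoint_left.1 (g n).2.1.2.2.1 hn ((g n).2.2 hd)

theorem cut_pair (hX : HLC X) {A : Set X} (hA : IsConnected A) (hAc : IsClosed A) {p : X}
    (hp : p ∉ A) : ∃ E : Set X, E.Countable ∧ ∃ V V', Pair Eᶜ V V' ∧ p ∈ V ∧ A ∩ Eᶜ ⊆ V' := by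
  obtain ⟨E, hE, hpE, hEN⟩ := cut hX hA (b := p) (by rwa [hAc.closure_eq])
  obtain ⟨V, V', hV, hAV, hpV⟩ := ps' hX hA hAc (Y := Eᶜ) (D := {p}) (by simpa using hpE) (by
    rintro a ⟨haA, haE⟩
    obtain ⟨V, V', hV, haV, hpV⟩ := qc hX (Y := Eᶜ) (p := p) (a := a) hpE haE (by
      intro N hN hNc hpN haN
      have := hEN N hN hNc hpN
      have h2 : a ∈ N ∩ A := ⟨haN, haA⟩
      rw [this] at h2
      exact h2)
    exact ⟨V, V', hV, haV, by simpa using hpV⟩)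
  exact ⟨E, hE, V', V, hV.symm, by simpa using hpV, hAV⟩

theorem exists_countable (hX : HLC X) : ∃ C : Set X, C.Countable ∧
    ∃ B : Set (Set ↥(Cᶜ : Set X)), (∀ U ∈ B, IsClosed U) ∧
      (∀ p : ↥(Cᶜ : Set X), ∀ V ∈ nhds p, ∃ U ∈ B, U ⊆ V ∧ p ∈ interior U) ∧
      (∀ U ∈ B, ∀ W ∈ B, Disjoint U W →
        ∃ F : Set ↥(Cᶜ : Set X), IsClopen F ∧ U ⊆ F ∧ Disjoint F W) := by
  classical
  obtain ⟨𝔅, h𝔅c, h𝔅, h𝔅b⟩ := exists_basis X
  -- a countable set for each basic set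
  have hC : ∀ G ∈ 𝔅, ∃ C : Set X, C.Countable ∧ ∀ p ∉ closure G, ∃ V V', Pair Cᶜ V V' ∧ p ∈ V ∧
      closure G ∩ Cᶜ ⊆ V' := by
    intro G hG
    have h1 : ∀ p : {p : X // p ∉ closure G}, ∃ E : Set X, E.Countable ∧ ∃ V V',
        Pair Eᶜ V V' ∧ p.1 ∈ V ∧ closure G ∩ Eᶜ ⊆ V' :=
      fun p => cut_pair hX (h𝔅 G hG).2.closure isClosed_closure p.2
    choose E hE V V' hV hpV hGV using h1
    obtain ⟨S, hS, hSu⟩ := TopologicalSpace.isOpen_iUnion_countable V (fun p => (hV p).1)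
    refine ⟨⋃ p ∈ S, E p, hS.biUnion fun p _ => hE p, ?_⟩
    intro p hp
    have h2 : p ∈ ⋃ i ∈ S, V i := by
      rw [hSu]
      exact mem_iUnion.2 ⟨⟨p, hp⟩, hpV ⟨p, hp⟩⟩
    obtain ⟨q, hq, hpq⟩ := mem_iUnion₂.1 h2
    have h3 : (⋃ p ∈ S, E p)ᶜ ⊆ (E q)ᶜ := by
      intro z hz hz'
      exact hz (mem_iUnion₂.2 ⟨q, hq, hz'⟩)
    exact ⟨V q, V' q, ⟨(hV q).1, (hV q).2.1, (hV q).2.2.1, h3.trans (hV q).2.2.2⟩, hpq,
      fun z hz => hGV q ⟨hz.1, h3 hz.2⟩⟩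
  choose! CC hCC hCp using hC
  refine ⟨⋃ G ∈ 𝔅, CC G, h𝔅c.biUnion fun G hG => hCC G hG, ?_⟩
  have hR₁ : ∀ G ∈ 𝔅, ∀ p ∉ closure G, ∃ V V', Pair (⋃ G ∈ 𝔅, CC G)ᶜ V V' ∧ p ∈ V ∧
      closure G ∩ (⋃ G ∈ 𝔅, CC G)ᶜ ⊆ V' := by
    intro G hG p hp
    obtain ⟨V, V', hV, hpV, hGV⟩ := hCp G hG p hp
    have h3 : (⋃ G ∈ 𝔅, CC G)ᶜ ⊆ (CC G)ᶜ := by
      intro z hz hz'
      exact hz (mem_iUnion₂.2 ⟨G, hG, hz'⟩)
    exact ⟨V, V', ⟨hV.1, hV.2.1, hV.2.2.1, h3.trans hV.2.2.2⟩, hpV,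
      fun z hz => hGV ⟨hz.1, h3 hz.2⟩⟩
  generalize (⋃ G ∈ 𝔅, CC G) = C at hR₁ ⊢
  refine ⟨{U | ∃ G ∈ 𝔅, U = Subtype.val ⁻¹' (closure G)}, ?_, ?_, ?_⟩
  · rintro _ ⟨G, hG, rfl⟩
    exact isClosed_closure.preimage continuous_subtype_val
  · intro p V hV
    obtain ⟨W, hW, hpW, hWV⟩ : ∃ W : Set X, IsOpen W ∧ (p : X) ∈ W ∧ Subtype.val ⁻¹' W ⊆ V := by
      obtain ⟨V', hV'V, hV', hpV'⟩ := mem_nhds_iff.1 hV
      obtain ⟨W, hW, rfl⟩ := isOpen_induced_iff.1 hV'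
      exact ⟨W, hW, hpV', hV'V⟩
    obtain ⟨G, hG, hpG, hGW⟩ := h𝔅b (p : X) W hW hpW
    refine ⟨_, ⟨G, hG, rfl⟩, (preimage_mono hGW).trans hWV, ?_⟩
    rw [mem_interior]
    exact ⟨Subtype.val ⁻¹' G, preimage_mono subset_closure,
      (h𝔅 G hG).1.preimage continuous_subtype_val, hpG⟩
  · rintro _ ⟨G, hG, rfl⟩ _ ⟨H, hH, rfl⟩ hd
    obtain ⟨V, V', hV, hGV, hHV⟩ := ps' hX (h𝔅 G hG).2.closure isClosed_closure (Y := Cᶜ)
      (D := closure H ∩ Cᶜ) inter_subset_right (by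
        rintro a ⟨haG, haC⟩
        apply hR₁ H hH a
        intro haH
        exact Set.disjoint_left.1 hd (show (⟨a, haC⟩ : ↥(Cᶜ : Set X)) ∈ _ from haG) haH)
    refine ⟨Subtype.val ⁻¹' V, ⟨?_, hV.1.preimage continuous_subtype_val⟩, ?_, ?_⟩
    · have : (Subtype.val ⁻¹' V : Set ↥(Cᶜ : Set X)) = (Subtype.val ⁻¹' V')ᶜ := by
        ext z
        constructor
        · intro hz hz'
          exact Set.disjoint_left.1 hV.2.2.1 hz hz'
        · intro hz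
          exact (hV.2.2.2 z.2).resolve_right hz
      rw [this]
      exact (hV.2.1.preimage continuous_subtype_val).isClosed_compl
    · intro z hz
      exact hGV ⟨hz, z.2⟩
    · rw [Set.disjoint_left]
      intro z hz hz'
      exact Set.disjoint_left.1 hV.2.2.1 hz (hHV ⟨hz', z.2⟩)

end Pool.Agent.R815.HLC
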