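import Pool.Agent.R815.HLC.Chain

/-!
# Disjoint connected open sets meeting a connected set are locally finite off its closure
-/

set_option autoImplicit false

namespace Pool.Agent.R815.HLC

open Topology Set

/-- every connected subset is locally connected -/
def HLC (X : Type*) [TopologicalSpace X] : Prop := ∀ S : Set X, IsConnected S → LocallyConnectedSpace S

theorem HLC.nhds {X : Type*} [TopologicalSpace X] (h : HLC X) {Z : Set X} (hZ : IsConnected Z)
    {b : X} (hb : b ∈ Z) {U : Set X} (hU : IsOpen U) (hbU : b ∈ U) :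
    ∃ V, IsOpen V ∧ b ∈ V ∧ Z ∩ V ⊆ U ∧ IsPreconnected (Z ∩ V) := by
  have := h Z hZ
  obtain ⟨V, hVU, hVo, hbV, hVc⟩ :=
    (locallyConnectedSpace_iff_subsets_isOpen_isConnected.1 this) ⟨b, hb⟩ (Subtype.val ⁻¹' U)
      ((hU.preimage continuous_subtype_val).mem_nhds hbU)
  obtain ⟨W, hW, rfl⟩ := isOpen_induced_iff.1 hVo
  refine ⟨W, hW, hbV, ?_, ?_⟩
  · rintro z ⟨hzZ, hzW⟩
    exact hVU (a := ⟨z, hzZ⟩) hzW
  · have := hVc.isPreconnected.image _ continuous_subtype_val.continuousOn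
    rwa [Subtype.image_preimage_coe] at this

variable {X : Type*} [MetricSpace X] [LocallyConnectedSpace X]

theorem locally_finite_at (hX : HLC X) {A : Set X} (hA : IsConnected A) {b : X}
    (hb : b ∉ closure A) (F : Set (Set X)) (hFo : ∀ T ∈ F, IsOpen T) (hFc : ∀ T ∈ F, IsConnected T)
    (hFA : ∀ T ∈ F, (T ∩ A).Nonempty) (hd : ∀ T ∈ F, ∀ T' ∈ F, T ≠ T' → Disjoint T T') :
    ∃ O, IsOpen O ∧ b ∈ O ∧ {T ∈ F | (T ∩ O).Nonempty}.Finite := by
  classical
  by_contra hno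
  push Not at hno
  -- `b` is in no member
  have hbT : ∀ T ∈ F, b ∉ T := by
    intro T hT hbT
    apply hno T (hFo T hT) hbT
    apply (Set.finite_singleton T).subset
    rintro T' ⟨hT', hne⟩
    by_contra hne'
    exact (Set.not_disjoint_iff_nonempty_inter.2 hne) (hd T' hT' T hT hne')
  -- a sequence of distinct members
  obtain ⟨f, hf1, hf2⟩ := exists_seq_of_forall_finset_exists
    (P := fun p : ℕ × Set X => p.2 ∈ F ∧ (p.2 ∩ Metric.ball b (1 / (p.1 + 1))).Nonempty)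
    (r := fun p q => p.1 < q.1 ∧ p.2 ≠ q.2) (by
      intro s _
      obtain ⟨n, hn⟩ : ∃ n : ℕ, ∀ p ∈ s, p.1 < n := by
        refine ⟨s.sup Prod.fst + 1, fun p hp => ?_⟩
        exact Nat.lt_succ_of_le (Finset.le_sup (f := Prod.fst) hp)
      have hinf := hno (Metric.ball b (1 / (n + 1))) Metric.isOpen_ball
        (Metric.mem_ball_self (by positivity))
      obtain ⟨T, ⟨hT, hT'⟩, hTs⟩ := Set.Infinite.exists_notMem_finset hinf (s.image Prod.snd)
      refine ⟨(n, T), ⟨hT, hT'⟩, fun p hp => ⟨hn p hp, ?_⟩⟩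
      rintro rfl
      exact hTs (Finset.mem_image_of_mem _ hp))
  have hmono : StrictMono (fun n => (f n).1) := strictMono_nat_of_lt_succ fun n =>
    (hf2 n (n + 1) (Nat.lt_succ_self n)).1
  have hge : ∀ n, n ≤ (f n).1 := fun n => hmono.id_le n
  have hdis : ∀ m n, m ≠ n → Disjoint (f m).2 (f n).2 := by
    intro m n hmn
    rcases lt_or_gt_of_ne hmn with h | h
    · exact hd _ (hf1 m).1 _ (hf1 n).1 (hf2 m n h).2
    · exact (hd _ (hf1 n).1 _ (hf1 m).1 (hf2 n m h).2).symm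
  have hx : ∀ n, ∃ x, x ∈ (f n).2 ∧ dist x b < 1 / (n + 1) := by
    intro n
    obtain ⟨x, hx1, hx2⟩ := (hf1 n).2
    refine ⟨x, hx1, lt_of_lt_of_le (Metric.mem_ball.1 hx2) ?_⟩
    apply one_div_le_one_div_of_le (by positivity)
    have : (n : ℝ) ≤ (f n).1 := by exact_mod_cast hge n
    linarith
  choose x hxT hxb using hx
  have ha : ∀ n, ∃ a, a ∈ (f n).2 ∧ a ∈ A := fun n => hFA _ (hf1 n).1
  choose a haT haA using ha
  have hV : ∀ n, ∃ V, IsOpen V ∧ IsConnected V ∧ closure V ⊆ (f n).2 ∧ x n ∈ V ∧ a n ∈ V :=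
    fun n => shrink (hFo _ (hf1 n).1) (hFc _ (hf1 n).1).isPreconnected (hxT n) (haT n)
  choose V hVo hVc hVT hxV haV using hV
  obtain ⟨a₀, ha₀⟩ := hA.nonempty
  -- the connected set
  have hZ₀ : IsConnected (⋃ n, (A ∪ V n)) := by
    refine ⟨⟨a₀, mem_iUnion.2 ⟨0, Or.inl ha₀⟩⟩, ?_⟩
    apply isPreconnected_iUnion ⟨a₀, mem_iInter.2 fun n => Or.inl ha₀⟩
    intro n
    exact (IsConnected.union ⟨a n, haA n, haV n⟩ hA (hVc n)).isPreconnected
  have hbcl : b ∈ closure (⋃ n, (A ∪ V n)) := by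
    rw [Metric.mem_closure_iff]
    intro ε hε
    obtain ⟨n, hn⟩ := exists_nat_one_div_lt hε
    refine ⟨x n, mem_iUnion.2 ⟨n, Or.inr (hxV n)⟩, ?_⟩
    rw [dist_comm]
    exact (hxb n).trans hn
  have hZ : IsConnected (insert b (⋃ n, (A ∪ V n))) :=
    hZ₀.subset_closure (subset_insert _ _) (insert_subset hbcl subset_closure)
  obtain ⟨O, hO, hbO, hOA, hOc⟩ := hX.nhds hZ (mem_insert _ _) isClosed_closure.isOpen_compl
    (U := (closure A)ᶜ) hb
  obtain ⟨ε, hε, hεO⟩ := Metric.isOpen_iff.1 hO b hbO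
  obtain ⟨n, hn⟩ := exists_nat_one_div_lt hε
  have hxO : x n ∈ O := hεO ((hxb n).trans hn)
  have hbV : b ∉ closure (V n) := fun h => hbT _ (hf1 n).1 (hVT n h)
  have hcov : insert b (⋃ n, (A ∪ V n)) ∩ O ⊆ V n ∪ (closure (V n))ᶜ := by
    rintro z ⟨hz, hzO⟩
    rcases hz with rfl | hz
    · exact Or.inr hbV
    · obtain ⟨m, hm⟩ := mem_iUnion.1 hz
      rcases hm with hm | hm
      · exfalso
        exact hOA ⟨Or.inr hz, hzO⟩ (subset_closure hm)
      · by_cases hmn : m = n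
        · subst hmn
          exact Or.inl hm
        · right
          intro h
          exact Set.disjoint_left.1 (hdis m n hmn) (hVT m (subset_closure hm)) (hVT n h)
  have hsub := hOc.subset_left_of_subset_union (hVo n) isClosed_closure.isOpen_compl
    (Set.disjoint_left.2 fun z hz hz' => hz' (subset_closure hz)) hcov
    ⟨x n, ⟨Or.inr (mem_iUnion.2 ⟨n, Or.inr (hxV n)⟩), hxO⟩, hxV n⟩
  exact hbV (subset_closure (hsub ⟨mem_insert _ _, hbO⟩))

end Pool.Agent.R815.HLC
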