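import Pool.Agent.R815.HLC.Chain

/-!
# Two disjoint connected open links
-/

set_option autoImplicit false

namespace Pool.Agent.R815.HLC

open Topology Set

variable {Y : Type*} [TopologicalSpace Y] [RegularSpace Y] [LocallyConnectedSpace Y]

/-- the first of two sets met by a connected open set, coming from a point -/
theorem first_hit {N A₁ A₂ : Set Y} (hN : IsOpen N) (hNc : IsConnected N) {r : Y} (hr : r ∈ N)
    (hd : Disjoint (closure A₁) (closure A₂)) (hne : (N ∩ (closure A₁ ∪ closure A₂)).Nonempty) :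
    ∃ N', IsOpen N' ∧ IsConnected N' ∧ N' ⊆ N ∧ r ∈ N' ∧
      (((N' ∩ A₁).Nonempty ∧ Disjoint N' A₂) ∨ ((N' ∩ A₂).Nonempty ∧ Disjoint N' A₁)) := by
  classical
  have hF : IsClosed (closure A₁ ∪ closure A₂) := isClosed_closure.union isClosed_closure
  obtain ⟨x, K, hxN, hxF, hK, hKc, hKN, hKx⟩ : ∃ x K, x ∈ N ∧ x ∈ closure A₁ ∪ closure A₂ ∧
      IsOpen K ∧ IsPreconnected K ∧ K ⊆ N \ (closure A₁ ∪ closure A₂) ∧
      ((r ∈ K ∧ x ∈ closure K) ∨ (K = ∅ ∧ r = x)) := by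
    by_cases hrF : r ∈ closure A₁ ∪ closure A₂
    · exact ⟨r, ∅, hr, hrF, isOpen_empty, isPreconnected_empty, empty_subset _, Or.inr ⟨rfl, rfl⟩⟩
    · obtain ⟨x, ⟨hxN, hxF⟩, hxK⟩ := exists_frontier hNc.isPreconnected hN hF hr hrF hne
      exact ⟨x, _, hxN, hxF, (hN.sdiff hF).connectedComponentIn, isPreconnected_connectedComponentIn,
        connectedComponentIn_subset _ _, Or.inl ⟨mem_connectedComponentIn ⟨hr, hrF⟩, hxK⟩⟩
  have main : ∀ B₁ B₂ : Set Y, Disjoint (closure B₁) (closure B₂) → x ∈ closure B₁ →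
      K ⊆ (closure B₂)ᶜ → ∃ N', IsOpen N' ∧ IsConnected N' ∧ N' ⊆ N ∧ r ∈ N' ∧
        (N' ∩ B₁).Nonempty ∧ Disjoint N' B₂ := by
    intro B₁ B₂ hB hx hKB
    obtain ⟨O, hO, hOc, hOcl, hxO⟩ := exists_nhd_closure
      (hN.inter (isClosed_closure (s := B₂)).isOpen_compl)
      ⟨hxN, Set.disjoint_left.1 hB hx⟩
    have hON : O ⊆ N ∩ (closure B₂)ᶜ := subset_closure.trans hOcl
    refine ⟨K ∪ O, hK.union hO, ?_, union_subset (fun z hz => (hKN hz).1) (fun z hz => (hON hz).1),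
      ?_, ?_, ?_⟩
    · rcases hKx with ⟨hrK, hxK⟩ | ⟨rfl, -⟩
      · obtain ⟨z, hz1, hz2⟩ := mem_closure_iff.1 hxK O hO hxO
        exact IsConnected.union ⟨z, hz2, hz1⟩ ⟨⟨r, hrK⟩, hKc⟩ hOc
      · rwa [empty_union]
    · rcases hKx with ⟨hrK, hxK⟩ | ⟨-, rfl⟩
      · exact Or.inl hrK
      · exact Or.inr hxO
    · obtain ⟨z, hz1, hz2⟩ := mem_closure_iff.1 hx O hO hxO
      exact ⟨z, Or.inr hz1, hz2⟩
    · rw [Set.disjoint_left]
      rintro z (hz | hz) hzB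
      · exact hKB hz (subset_closure hzB)
      · exact (hON hz).2 (subset_closure hzB)
  rcases hxF with hx | hx
  · obtain ⟨N', h1, h2, h3, h4, h5, h6⟩ := main A₁ A₂ hd hx
      (fun z hz hz' => (hKN hz).2 (Or.inr hz'))
    exact ⟨N', h1, h2, h3, h4, Or.inl ⟨h5, h6⟩⟩
  · obtain ⟨N', h1, h2, h3, h4, h5, h6⟩ := main A₂ A₁ hd.symm hx
      (fun z hz hz' => (hKN hz).2 (Or.inl hz'))
    exact ⟨N', h1, h2, h3, h4, Or.inr ⟨h5, h6⟩⟩

/-- Menger's theorem for two links. -/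
theorem menger [PreconnectedSpace Y] {P R : Set Y} (hP : IsOpen P) (hPne : P.Nonempty)
    (hR : R.Nonempty)
    (hlink : ∀ y, ∃ N, IsOpen N ∧ IsConnected N ∧ (N ∩ P).Nonempty ∧ (N ∩ R).Nonempty ∧
      y ∉ closure N) :
    ∃ C D, IsOpen C ∧ IsConnected C ∧ IsOpen D ∧ IsConnected D ∧ Disjoint C D ∧
      (C ∩ P).Nonempty ∧ (C ∩ R).Nonempty ∧ (D ∩ P).Nonempty ∧ (D ∩ R).Nonempty := by
  classical
  let S : Set Y := {y | ∃ C D, IsOpen C ∧ IsConnected C ∧ y ∈ C ∧ (C ∩ P).Nonempty ∧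
    IsOpen D ∧ IsConnected D ∧ (D ∩ P).Nonempty ∧ (D ∩ R).Nonempty ∧ Disjoint C D}
  have hSo : IsOpen S := by
    rw [isOpen_iff_forall_mem_open]
    rintro y ⟨C, D, h1, h2, h3, h4, h5⟩
    exact ⟨C, fun z hz => ⟨C, D, h1, h2, hz, h4, h5⟩, h1, h3⟩
  have hSne : S.Nonempty := by
    obtain ⟨p, hp⟩ := hPne
    obtain ⟨N, hN, hNc, hNP, hNR, hpN⟩ := hlink p
    obtain ⟨C, hC, hCc, hCcl, hpC⟩ := exists_nhd_closure
      (isClosed_closure (s := N)).isOpen_compl hpN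
    refine ⟨p, C, N, hC, hCc, hpC, ⟨p, hpC, hp⟩, hN, hNc, hNP, hNR, ?_⟩
    rw [Set.disjoint_left]
    intro z hz hz'
    exact hCcl (subset_closure hz) (subset_closure hz')
  have hScl : IsClosed S := by
    rw [← closure_subset_iff_isClosed]
    intro y hy
    obtain ⟨N, hN, hNc, hNP, ⟨r, hrN, hrR⟩, hyN⟩ := hlink y
    obtain ⟨W, hW, hWc, hWcl, hyW⟩ := exists_nhd_closure
      (isClosed_closure (s := N)).isOpen_compl hyN
    have hWN : Disjoint W N := by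
      rw [Set.disjoint_left]
      intro z hz hz'
      exact hWcl (subset_closure hz) (subset_closure hz')
    by_cases hWP : (W ∩ P).Nonempty
    · exact ⟨W, N, hW, hWc, hyW, hWP, hN, hNc, hNP, ⟨r, hrN, hrR⟩, hWN⟩
    have hPW : ∀ z ∈ P, z ∉ closure W := by
      intro z hz hzW
      obtain ⟨w, hw1, hw2⟩ := mem_closure_iff.1 hzW P hP hz
      exact hWP ⟨w, hw2, hw1⟩
    obtain ⟨s, hsW, C₁, D₁, hC₁, hC₁c, hsC₁, ⟨p₁, hp₁C, hp₁⟩, hD₁, hD₁c, ⟨p₂, hp₂D, hp₂⟩,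
      hD₁R, hCD⟩ := mem_closure_iff.1 hy W hW hyW
    by_cases hWD : Disjoint W D₁
    · refine ⟨C₁ ∪ W, D₁, hC₁.union hW, IsConnected.union ⟨s, hsC₁, hsW⟩ hC₁c hWc, Or.inr hyW,
        ⟨p₁, Or.inl hp₁C, hp₁⟩, hD₁, hD₁c, ⟨p₂, hp₂D, hp₂⟩, hD₁R, ?_⟩
      exact Set.disjoint_union_left.2 ⟨hCD, hWD⟩
    rw [Set.not_disjoint_iff] at hWD
    obtain ⟨w, hwW, hwD⟩ := hWD
    obtain ⟨C, hC, hCc, hCcl, hsC, hp₁C'⟩ := shrink hC₁ hC₁c.isPreconnected hsC₁ hp₁C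
    obtain ⟨D, hD, hDc, hDcl, hwD', hp₂D'⟩ := shrink hD₁ hD₁c.isPreconnected hwD hp₂D
    -- the pieces of `C` and `D` outside `W`
    have piece : ∀ (E E₁ : Set Y) (t p : Y), IsOpen E → IsConnected E → IsOpen E₁ →
        closure E ⊆ E₁ → t ∈ E → t ∈ W → p ∈ E → p ∈ P →
        ∃ E₀ O, IsOpen E₀ ∧ IsConnected E₀ ∧ p ∈ E₀ ∧ closure E₀ ⊆ E₁ ∧ Disjoint E₀ W ∧
          IsOpen O ∧ O ⊆ E₁ ∧ Disjoint O N ∧ IsConnected (E₀ ∪ O ∪ W) := by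
      intro E E₁ t p hE hEc hE₁ hEcl htE htW hpE hp
      obtain ⟨q, ⟨hqE, hqW⟩, hq⟩ := exists_frontier hEc.isPreconnected hE
        (isClosed_closure (s := W)) hpE (hPW p hp) ⟨t, htE, subset_closure htW⟩
      obtain ⟨O, hO, hOc, hOcl, hqO⟩ := exists_nhd_closure
        (hE₁.inter (isClosed_closure (s := N)).isOpen_compl) ⟨hEcl (subset_closure hqE), hWcl hqW⟩
      have hOE : O ⊆ E₁ ∩ (closure N)ᶜ := subset_closure.trans hOcl
      have hE₀ : IsConnected (connectedComponentIn (E \ closure W) p) :=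
        isConnected_connectedComponentIn_iff.2 ⟨hpE, hPW p hp⟩
      refine ⟨connectedComponentIn (E \ closure W) p, O,
        (hE.sdiff isClosed_closure).connectedComponentIn, hE₀,
        mem_connectedComponentIn ⟨hpE, hPW p hp⟩, ?_, ?_, hO, fun z hz => (hOE hz).1, ?_, ?_⟩
      · exact (closure_mono ((connectedComponentIn_subset _ _).trans sdiff_subset)).trans hEcl
      · rw [Set.disjoint_left]
        intro z hz hzW
        exact (connectedComponentIn_subset _ _ hz).2 (subset_closure hzW)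
      · rw [Set.disjoint_left]
        intro z hz hzN
        exact (hOE hz).2 (subset_closure hzN)
      · obtain ⟨z₁, h1, h2⟩ := mem_closure_iff.1 hq O hO hqO
        obtain ⟨z₂, h3, h4⟩ := mem_closure_iff.1 hqW O hO hqO
        exact IsConnected.union ⟨z₂, Or.inr h3, h4⟩
          (IsConnected.union ⟨z₁, h2, h1⟩ hE₀ hOc) hWc
    obtain ⟨C₀, O₁, hC₀, hC₀c, hpC₀, hC₀cl, hC₀W, hO₁, hO₁C, hO₁N, hE₁⟩ :=
      piece C C₁ s p₁ hC hCc hC₁ hCcl hsC hsW hp₁C' hp₁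
    obtain ⟨D₀, O₂, hD₀, hD₀c, hpD₀, hD₀cl, hD₀W, hO₂, hO₂D, hO₂N, hE₂⟩ :=
      piece D D₁ w p₂ hD hDc hD₁ hDcl hwD' hwW hp₂D' hp₂
    by_cases hNC : Disjoint N C₀
    · refine ⟨C₀ ∪ O₁ ∪ W, N, (hC₀.union hO₁).union hW, hE₁, Or.inr hyW,
        ⟨p₁, Or.inl (Or.inl hpC₀), hp₁⟩, hN, hNc, hNP, ⟨r, hrN, hrR⟩, ?_⟩
      exact Set.disjoint_union_left.2 ⟨Set.disjoint_union_left.2 ⟨hNC.symm, hO₁N⟩, hWN⟩
    rw [Set.not_disjoint_iff] at hNC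
    obtain ⟨z, hzN, hzC⟩ := hNC
    obtain ⟨N', hN', hN'c, hN'N, hrN', hcase⟩ := first_hit (A₁ := C₀) (A₂ := D₀) hN hNc hrN
      (hCD.mono hC₀cl hD₀cl) ⟨z, hzN, Or.inl (subset_closure hzC)⟩
    have hC₀C : C₀ ⊆ C₁ := subset_closure.trans hC₀cl
    have hD₀D : D₀ ⊆ D₁ := subset_closure.trans hD₀cl
    rcases hcase with ⟨h1, h2⟩ | ⟨h1, h2⟩
    · refine ⟨D₀ ∪ O₂ ∪ W, N' ∪ C₀, (hD₀.union hO₂).union hW, hE₂, Or.inr hyW,
        ⟨p₂, Or.inl (Or.inl hpD₀), hp₂⟩, hN'.union hC₀, IsConnected.union h1 hN'c hC₀c,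
        ⟨p₁, Or.inr hpC₀, hp₁⟩, ⟨r, Or.inl hrN', hrR⟩, ?_⟩
      refine Set.disjoint_union_left.2 ⟨Set.disjoint_union_left.2 ⟨?_, ?_⟩, ?_⟩
      · exact Set.disjoint_union_right.2 ⟨h2.symm, (hCD.mono hC₀C hD₀D).symm⟩
      · exact Set.disjoint_union_right.2 ⟨hO₂N.mono_right hN'N, (hCD.mono hC₀C hO₂D).symm⟩
      · exact Set.disjoint_union_right.2 ⟨hWN.mono_right hN'N, hC₀W.symm⟩
    · refine ⟨C₀ ∪ O₁ ∪ W, N' ∪ D₀, (hC₀.union hO₁).union hW, hE₁, Or.inr hyW,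
        ⟨p₁, Or.inl (Or.inl hpC₀), hp₁⟩, hN'.union hD₀, IsConnected.union h1 hN'c hD₀c,
        ⟨p₂, Or.inr hpD₀, hp₂⟩, ⟨r, Or.inl hrN', hrR⟩, ?_⟩
      refine Set.disjoint_union_left.2 ⟨Set.disjoint_union_left.2 ⟨?_, ?_⟩, ?_⟩
      · exact Set.disjoint_union_right.2 ⟨h2.symm, hCD.mono hC₀C hD₀D⟩
      · exact Set.disjoint_union_right.2 ⟨hO₁N.mono_right hN'N, hCD.mono hO₁C hD₀D⟩
      · exact Set.disjoint_union_right.2 ⟨hWN.mono_right hN'N, hD₀W.symm⟩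
  have hSu : S = univ := IsClopen.eq_univ ⟨hScl, hSo⟩ hSne
  obtain ⟨r, hr⟩ := hR
  have hrS : r ∈ S := by
    rw [hSu]
    trivial
  obtain ⟨C, D, h1, h2, h3, h4, h5, h6, h7, h8, h9⟩ := hrS
  exact ⟨C, D, h1, h2, h5, h6, h9, h4, ⟨r, h3, hr⟩, h7, h8⟩

end Pool.Agent.R815.HLC
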