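import Pool.Agent.R815.HLC.LocFin

/-!
# Separation by relatively clopen sets in hereditarily locally connected spaces
-/

set_option autoImplicit false

namespace Pool.Agent.R815.HLC

open Topology Set

/-- a relatively clopen partition of `Y`, given by disjoint open sets of the ambient space -/
def Pair {X : Type*} [TopologicalSpace X] (Y U U' : Set X) : Prop :=
  IsOpen U ∧ IsOpen U' ∧ Disjoint U U' ∧ Y ⊆ U ∪ U'

theorem Pair.symm {X : Type*} [TopologicalSpace X] {Y U U' : Set X} (h : Pair Y U U') :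
    Pair Y U' U := ⟨h.2.1, h.1, h.2.2.1.symm, by rw [union_comm]; exact h.2.2.2⟩

theorem Pair.notMem_closure {X : Type*} [TopologicalSpace X] {Y U U' : Set X} (h : Pair Y U U')
    {y : X} (hy : y ∈ Y) (hyU : y ∉ U) {T : Set X} (hT : T ⊆ U) : y ∉ closure T := by
  intro hcl
  have hyU' : y ∈ U' := (h.2.2.2 hy).resolve_left hyU
  obtain ⟨z, hz1, hz2⟩ := mem_closure_iff.1 hcl U' h.2.1 hyU'
  exact Set.disjoint_left.1 h.2.2.1 (hT hz2) hz1

section Tiles

variable {X : Type*} [TopologicalSpace X]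

/-- the `n`-th layer -/
def layer (U U' : ℕ → Set X) (n : ℕ) : Set X := U n ∩ ⋂ i ∈ Finset.range n, U' i

/-- components of layers -/
def tiles (U U' : ℕ → Set X) : Set (Set X) :=
  {T | ∃ n, ∃ x ∈ layer U U' n, T = connectedComponentIn (layer U U' n) x}

variable {Y : Set X} {U U' : ℕ → Set X}

theorem isOpen_layer (h : ∀ n, Pair Y (U n) (U' n)) (n : ℕ) : IsOpen (layer U U' n) :=
  (h n).1.inter (isOpen_biInter_finset fun i _ => (h i).2.1)

theorem isOpen_tile [LocallyConnectedSpace X] (h : ∀ n, Pair Y (U n) (U' n)) {T : Set X}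
    (hT : T ∈ tiles U U') : IsOpen T := by
  obtain ⟨n, x, hx, rfl⟩ := hT
  exact (isOpen_layer h n).connectedComponentIn

theorem isConnected_tile {T : Set X} (hT : T ∈ tiles U U') : IsConnected T := by
  obtain ⟨n, x, hx, rfl⟩ := hT
  exact isConnected_connectedComponentIn_iff.2 hx

theorem tile_subset {T : Set X} (hT : T ∈ tiles U U') : ∃ n, T ⊆ U n := by
  obtain ⟨n, x, hx, rfl⟩ := hT
  exact ⟨n, (connectedComponentIn_subset _ _).trans inter_subset_left⟩

theorem disjoint_layer (h : ∀ n, Pair Y (U n) (U' n)) {m n : ℕ} (hmn : m < n) :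
    Disjoint (layer U U' m) (layer U U' n) := by
  rw [Set.disjoint_left]
  rintro z ⟨hz1, -⟩ ⟨-, hz2⟩
  have : z ∈ U' m := by
    rw [mem_iInter₂] at hz2
    exact hz2 m (Finset.mem_range.2 hmn)
  exact Set.disjoint_left.1 (h m).2.2.1 hz1 this

theorem tile_eq (h : ∀ n, Pair Y (U n) (U' n)) {T T' : Set X} (hT : T ∈ tiles U U')
    (hT' : T' ∈ tiles U U') {z : X} (hz : z ∈ T) (hz' : z ∈ T') : T = T' := by
  obtain ⟨n, x, hx, rfl⟩ := hT
  obtain ⟨n', x', hx', rfl⟩ := hT'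
  have hn : n = n' := by
    have h1 := connectedComponentIn_subset _ _ hz
    have h2 := connectedComponentIn_subset _ _ hz'
    rcases lt_trichotomy n n' with hlt | heq | hlt
    · exact absurd h2 (Set.disjoint_left.1 (disjoint_layer h hlt) h1)
    · exact heq
    · exact absurd h1 (Set.disjoint_left.1 (disjoint_layer h hlt) h2)
  subst hn
  rw [connectedComponentIn_eq hz, connectedComponentIn_eq hz']

theorem tile_disjoint (h : ∀ n, Pair Y (U n) (U' n)) {T T' : Set X} (hT : T ∈ tiles U U')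
    (hT' : T' ∈ tiles U U') (hne : T ≠ T') : Disjoint T T' := by
  rw [Set.disjoint_left]
  intro z hz hz'
  exact hne (tile_eq h hT hT' hz hz')

theorem exists_tile (h : ∀ n, Pair Y (U n) (U' n)) {y : X} (hy : y ∈ Y) (hyU : y ∈ ⋃ n, U n) :
    ∃ T ∈ tiles U U', y ∈ T := by
  classical
  have hex : ∃ n, y ∈ U n := mem_iUnion.1 hyU
  have hl : y ∈ layer U U' (Nat.find hex) := by
    refine ⟨Nat.find_spec hex, ?_⟩
    rw [mem_iInter₂]
    intro i hi
    exact ((h i).2.2.2 hy).resolve_left (Nat.find_min hex (Finset.mem_range.1 hi))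
  exact ⟨_, ⟨_, y, hl, rfl⟩, mem_connectedComponentIn hl⟩

theorem exists_open_disjoint (F : Set (Set X)) {y : X} {O : Set X} (hO : IsOpen O) (hyO : y ∈ O)
    (hfin : {T ∈ F | (T ∩ O).Nonempty}.Finite) (hcl : ∀ T ∈ F, y ∉ closure T) :
    ∃ O', IsOpen O' ∧ y ∈ O' ∧ ∀ T ∈ F, Disjoint T O' := by
  refine ⟨O \ ⋃ T ∈ {T ∈ F | (T ∩ O).Nonempty}, closure T,
    hO.sdiff (hfin.isClosed_biUnion fun T _ => isClosed_closure), ⟨hyO, ?_⟩, ?_⟩
  · rw [mem_iUnion₂]
    rintro ⟨T, hT, hyT⟩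
    exact hcl T hT.1 hyT
  · intro T hT
    rw [Set.disjoint_left]
    rintro z hz ⟨hzO, hz'⟩
    apply hz'
    rw [mem_iUnion₂]
    exact ⟨T, ⟨hT, ⟨z, hz, hzO⟩⟩, subset_closure hz⟩

end Tiles

variable {X : Type*} [MetricSpace X] [LocallyConnectedSpace X]

/-- Separating a connected closed set from whatever its points can be separated from. -/
theorem ps (hX : HLC X) {A Y : Set X} (hA : IsConnected A) (hAc : IsClosed A) (U U' : ℕ → Set X)
    (h : ∀ n, Pair Y (U n) (U' n)) (hcov : A ∩ Y ⊆ ⋃ n, U n) :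
    ∃ V V', Pair Y V V' ∧ A ∩ Y ⊆ V ∧ V ⊆ ⋃ n, U n := by
  let F : Set (Set X) := {T ∈ tiles U U' | (T ∩ A).Nonempty}
  have hV : IsOpen (⋃₀ F) := isOpen_sUnion fun T hT => isOpen_tile h hT.1
  refine ⟨⋃₀ F, (closure (⋃₀ F))ᶜ, ⟨hV, isClosed_closure.isOpen_compl,
    Set.disjoint_left.2 fun z hz hz' => hz' (subset_closure hz), ?_⟩, ?_, ?_⟩
  · intro y hy
    by_cases hycl : y ∈ closure (⋃₀ F)
    · left
      by_cases hyU : y ∈ ⋃ n, U n
      · obtain ⟨T, hT, hyT⟩ := exists_tile h hy hyU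
        obtain ⟨z, hzT, T', hT', hzT'⟩ := mem_closure_iff.1 hycl T (isOpen_tile h hT) hyT
        have := tile_eq h hT hT'.1 hzT hzT'
        subst this
        exact ⟨T, hT', hyT⟩
      · exfalso
        have hyA : y ∉ closure A := by
          rw [hAc.closure_eq]
          intro hyA
          exact hyU (hcov ⟨hyA, hy⟩)
        obtain ⟨O, hO, hyO, hfin⟩ := locally_finite_at hX hA hyA F
          (fun T hT => isOpen_tile h hT.1) (fun T hT => isConnected_tile hT.1)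
          (fun T hT => hT.2) (fun T hT T' hT' hne => tile_disjoint h hT.1 hT'.1 hne)
        obtain ⟨O', hO', hyO', hdis⟩ := exists_open_disjoint F hO hyO hfin (by
          intro T hT
          obtain ⟨n, hn⟩ := tile_subset hT.1
          exact (h n).notMem_closure hy (fun h' => hyU (mem_iUnion.2 ⟨n, h'⟩)) hn)
        obtain ⟨z, hzO', T, hT, hzT⟩ := mem_closure_iff.1 hycl O' hO' hyO'
        exact Set.disjoint_left.1 (hdis T hT) hzT hzO'
    · exact Or.inr hycl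
  · rintro y ⟨hyA, hy⟩
    obtain ⟨T, hT, hyT⟩ := exists_tile h hy (hcov ⟨hyA, hy⟩)
    exact ⟨T, ⟨hT, ⟨y, hyT, hyA⟩⟩, hyT⟩
  · rintro y ⟨T, hT, hyT⟩
    obtain ⟨n, hn⟩ := tile_subset hT.1
    exact mem_iUnion.2 ⟨n, hn hyT⟩

/-- Quasi-components of subsets of hereditarily locally connected spaces are connected. -/
theorem qc [SecondCountableTopology X] (hX : HLC X) {Y : Set X} {p a : X} (hp : p ∈ Y) (ha : a ∈ Y)
    (hno : ∀ N ⊆ Y, IsConnected N → p ∈ N → a ∉ N) : ∃ V V', Pair Y V V' ∧ a ∈ V ∧ p ∈ V' := by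
  classical
  by_contra hcon
  push Not at hcon
  let I := {q : Set X × Set X // Pair Y q.1 q.2 ∧ p ∈ q.2}
  let i₀ : I := ⟨(∅, univ), ⟨isOpen_empty, isOpen_univ, disjoint_bot_left, by simp⟩, mem_univ _⟩
  obtain ⟨S, hS, hSu⟩ := TopologicalSpace.isOpen_iUnion_countable (fun q : I => q.1.1)
    (fun q => q.2.1.1)
  obtain ⟨g, hg⟩ := (hS.insert i₀).exists_eq_range ⟨i₀, mem_insert _ _⟩
  let U : ℕ → Set X := fun n => (g n).1.1
  let U' : ℕ → Set X := fun n => (g n).1.2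
  have h : ∀ n, Pair Y (U n) (U' n) := fun n => (g n).2.1
  have hpU : ∀ n, p ∈ U' n := fun n => (g n).2.2
  -- the union of all `U n` is everything separated from `p`
  have hall : ∀ q : I, q.1.1 ⊆ ⋃ n, U n := by
    intro q z hz
    have h1 : z ∈ ⋃ i ∈ S, (fun q : I => q.1.1) i := by
      rw [hSu]
      exact mem_iUnion.2 ⟨q, hz⟩
    obtain ⟨i, hi, hzi⟩ := mem_iUnion₂.1 h1
    have h2 : i ∈ insert i₀ S := Or.inr hi
    rw [hg] at h2
    obtain ⟨n, rfl⟩ := h2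
    exact mem_iUnion.2 ⟨n, hzi⟩
  let Q : Set X := Y \ ⋃ n, U n
  have hpQ : p ∈ Q := by
    refine ⟨hp, ?_⟩
    rw [mem_iUnion]
    rintro ⟨n, hn⟩
    exact Set.disjoint_left.1 (h n).2.2.1 hn (hpU n)
  have haQ : a ∈ Q := by
    refine ⟨ha, ?_⟩
    rw [mem_iUnion]
    rintro ⟨n, hn⟩
    exact hcon (U n) (U' n) (h n) hn (hpU n)
  have hQ : ¬ IsPreconnected Q := fun hQ => hno Q (fun z hz => hz.1) ⟨⟨p, hpQ⟩, hQ⟩ hpQ haQ
  rw [IsPreconnected] at hQ
  push Not at hQ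
  obtain ⟨W₁, W₂, hW₁, hW₂, hQW, ⟨q₁, hq₁⟩, ⟨q₂, hq₂⟩, hemp⟩ := hQ
  have hemp' : ∀ z ∈ Q, z ∈ W₁ → z ∉ W₂ := by
    intro z hz h1 h2
    have : z ∈ Q ∩ (W₁ ∩ W₂) := ⟨hz, h1, h2⟩
    rw [hemp] at this
    exact this
  obtain ⟨O₁, O₂, hO₁, hO₂, hQO₁, hQO₂, hO⟩ : SeparatedNhds (Q ∩ W₁) (Q ∩ W₂) := by
    apply separatedNhds_iff_disjoint.2
    apply CompletelyNormalSpace.completely_normal
    · rw [Set.disjoint_left]
      rintro z hz ⟨hzQ, hzW⟩
      obtain ⟨w, hw1, hw2, hw3⟩ := mem_closure_iff.1 hz W₂ hW₂ hzW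
      exact hemp' w hw2 hw3 hw1
    · rw [Set.disjoint_left]
      rintro z ⟨hzQ, hzW⟩ hz
      obtain ⟨w, hw1, hw2, hw3⟩ := mem_closure_iff.1 hz W₁ hW₁ hzW
      exact hemp' w hw2 hw1 hw3
  let O : Bool → Set X := fun b => if b then O₁ else O₂
  have hOo : ∀ b, IsOpen (O b) := by
    rintro (_ | _)
    · exact hO₂
    · exact hO₁
  have hOd : ∀ b, Disjoint (O b) (O (!b)) := by
    rintro (_ | _)
    · exact hO.symm
    · exact hO
  have hQO : ∀ z ∈ Q, ∃ b, z ∈ O b := by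
    intro z hz
    rcases hQW hz with h1 | h1
    · exact ⟨true, hQO₁ ⟨hz, h1⟩⟩
    · exact ⟨false, hQO₂ ⟨hz, h1⟩⟩
  -- a countable cover of `Q` by connected open sets
  let J := {q : Set X × Bool // IsOpen q.1 ∧ IsConnected q.1 ∧ closure q.1 ⊆ O q.2}
  obtain ⟨S', hS', hSu'⟩ := TopologicalSpace.isOpen_iUnion_countable (fun q : J => q.1.1)
    (fun q => q.2.1)
  have hcovQ : ∀ z ∈ Q, ∃ q ∈ S', z ∈ q.1.1 := by
    intro z hz
    obtain ⟨b, hb⟩ := hQO z hz
    obtain ⟨V, h1, h2, h3, h4⟩ := exists_nhd_closure (hOo b) hb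
    have h5 : z ∈ ⋃ i ∈ S', (fun q : J => q.1.1) i := by
      rw [hSu']
      exact mem_iUnion.2 ⟨⟨(V, b), h1, h2, h3⟩, h4⟩
    obtain ⟨i, hi, hzi⟩ := mem_iUnion₂.1 h5
    exact ⟨i, hi, hzi⟩
  obtain ⟨g', hg'⟩ := hS'.exists_eq_range (by
    obtain ⟨q, hq, -⟩ := hcovQ p hpQ
    exact ⟨q, hq⟩)
  let N : ℕ → Set X := fun n => (g' n).1.1
  let t : ℕ → Bool := fun n => (g' n).1.2
  have hNc : ∀ n, IsConnected (N n) := fun n => (g' n).2.2.1
  have hNo : ∀ n, IsOpen (N n) := fun n => (g' n).2.1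
  have hNcl : ∀ n, closure (N n) ⊆ O (t n) := fun n => (g' n).2.2.2
  have hcovN : ∀ z ∈ Q, ∃ n, z ∈ N n := by
    intro z hz
    obtain ⟨q, hq, hzq⟩ := hcovQ z hz
    rw [hg'] at hq
    obtain ⟨n, rfl⟩ := hq
    exact ⟨n, hzq⟩
  -- the sides of the tiles
  let c : Set X → Bool := fun T => if h : ∃ j, (T ∩ N j).Nonempty then t (Nat.find h) else false
  let F : Bool → Set X := fun b => (Q ∩ O b) ∪ ⋃₀ {T ∈ tiles U U' | c T = b}
  have hQU : ∀ z ∈ Q, ∀ n, z ∉ U n := fun z hz n hzn => hz.2 (mem_iUnion.2 ⟨n, hzn⟩)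
  have key : ∀ b, ∀ y ∈ F (!b), ∃ O', IsOpen O' ∧ y ∈ O' ∧ Disjoint O' (F b) := by
    intro b y hy
    rcases hy with ⟨hyQ, hyO⟩ | ⟨T, ⟨hT, hcT⟩, hyT⟩
    · obtain ⟨j, hj⟩ := hcovN y hyQ
      have htj : t j = !b := by
        by_contra hne
        have hb : t j = b := by
          revert hne
          cases t j <;> cases b <;> simp
        have h1 : y ∈ O b := by
          rw [← hb]
          exact hNcl j (subset_closure hj)
        exact Set.disjoint_left.1 (hOd b) h1 hyO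
      have hO' : ∀ i, t i = b → ∃ O', IsOpen O' ∧ y ∈ O' ∧
          ∀ T ∈ tiles U U', (T ∩ N i).Nonempty → Disjoint T O' := by
        intro i hi
        have hyN : y ∉ closure (N i) := by
          intro h1
          have h2 := hNcl i h1
          rw [hi] at h2
          exact Set.disjoint_left.1 (hOd b) h2 hyO
        obtain ⟨O₀, hO₀, hyO₀, hfin⟩ := locally_finite_at hX (hNc i) hyN
          {T ∈ tiles U U' | (T ∩ N i).Nonempty}
          (fun T hT => isOpen_tile h hT.1) (fun T hT => isConnected_tile hT.1)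
          (fun T hT => hT.2) (fun T hT T' hT' hne => tile_disjoint h hT.1 hT'.1 hne)
        obtain ⟨O', hO', hyO', hdis⟩ := exists_open_disjoint _ hO₀ hyO₀ hfin (by
          intro T hT
          obtain ⟨n, hn⟩ := tile_subset hT.1
          exact (h n).notMem_closure hyQ.1 (hQU y hyQ n) hn)
        exact ⟨O', hO', hyO', fun T hT hTN => hdis T ⟨hT, hTN⟩⟩
      choose! O' h1 h2 h3 using hO'
      refine ⟨(N j ∩ O (!b)) ∩ ⋂ i ∈ (Finset.range j).filter (fun i => t i = b), O' i, ?_, ?_, ?_⟩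
      · apply ((hNo j).inter (hOo _)).inter
        apply isOpen_biInter_finset
        intro i hi
        exact h1 i (Finset.mem_filter.1 hi).2
      · refine ⟨⟨hj, hyO⟩, ?_⟩
        rw [mem_iInter₂]
        intro i hi
        exact h2 i (Finset.mem_filter.1 hi).2
      · rw [Set.disjoint_left]
        rintro z ⟨⟨hzN, hzO⟩, hzI⟩ (⟨-, hzO'⟩ | ⟨T, ⟨hT, hcT⟩, hzT⟩)
        · exact Set.disjoint_left.1 (hOd b) hzO' hzO
        · have hex : ∃ j, (T ∩ N j).Nonempty := ⟨j, z, hzT, hzN⟩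
          have hc : c T = t (Nat.find hex) := dif_pos hex
          have hle : Nat.find hex ≤ j := Nat.find_min' hex ⟨z, hzT, hzN⟩
          have hne : Nat.find hex ≠ j := by
            intro he
            rw [he, hcT, htj] at hc
            cases b <;> simp at hc
          have hlt : Nat.find hex < j := lt_of_le_of_ne hle hne
          have htb : t (Nat.find hex) = b := by rw [← hc, hcT]
          rw [mem_iInter₂] at hzI
          have h4 := hzI (Nat.find hex) (Finset.mem_filter.2 ⟨Finset.mem_range.2 hlt, htb⟩)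
          exact Set.disjoint_left.1 (h3 _ htb T hT (Nat.find_spec hex)) hzT h4
    · refine ⟨T, isOpen_tile h hT, hyT, ?_⟩
      rw [Set.disjoint_left]
      rintro z hzT (⟨hzQ, -⟩ | ⟨T', ⟨hT', hcT'⟩, hzT'⟩)
      · obtain ⟨n, hn⟩ := tile_subset hT
        exact hQU z hzQ n (hn hzT)
      · have := tile_eq h hT hT' hzT hzT'
        subst this
        rw [hcT] at hcT'
        cases b <;> simp at hcT'
  have hsep : ∀ b, Disjoint (closure (F b)) (F (!b)) := by
    intro b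
    rw [Set.disjoint_left]
    intro z hz hz'
    obtain ⟨O', h1, h2, h3⟩ := key b z hz'
    obtain ⟨w, hw1, hw2⟩ := mem_closure_iff.1 hz O' h1 h2
    exact Set.disjoint_left.1 h3 hw1 hw2
  obtain ⟨V, V', hV, hV', hFV, hFV', hd⟩ : SeparatedNhds (F true) (F false) :=
    separatedNhds_iff_disjoint.2
      (CompletelyNormalSpace.completely_normal (hsep true) (hsep false).symm)
  have hpair : Pair Y V V' := by
    refine ⟨hV, hV', hd, ?_⟩
    intro y hy
    have hyF : ∃ b, y ∈ F b := by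
      by_cases hyU : y ∈ ⋃ n, U n
      · obtain ⟨T, hT, hyT⟩ := exists_tile h hy hyU
        exact ⟨c T, Or.inr ⟨T, ⟨hT, rfl⟩, hyT⟩⟩
      · obtain ⟨b, hb⟩ := hQO y ⟨hy, hyU⟩
        exact ⟨b, Or.inl ⟨⟨hy, hyU⟩, hb⟩⟩
    obtain ⟨b, hb⟩ := hyF
    cases b
    · exact Or.inr (hFV' hb)
    · exact Or.inl (hFV hb)
  have hq₁' : q₁ ∈ V := hFV (Or.inl ⟨hq₁.1, hQO₁ hq₁⟩)
  have hq₂' : q₂ ∈ V' := hFV' (Or.inl ⟨hq₂.1, hQO₂ hq₂⟩)
  rcases hpair.2.2.2 hp with hpV | hpV
  · exact hq₂.1.2 (hall ⟨(V', V), hpair.symm, hpV⟩ hq₂')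
  · exact hq₁.1.2 (hall ⟨(V, V'), hpair, hpV⟩ hq₁')

end Pool.Agent.R815.HLC
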