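import Pool.Agent.R815.HLC.Sep
import Pool.Agent.R815.HLC.Menger

/-!
# Cutting a point from a connected set by countably many points
-/

set_option autoImplicit false

namespace Pool.Agent.R815.HLC

open Topology Set

theorem exists_basis (X : Type*) [TopologicalSpace X] [LocallyConnectedSpace X]
    [SecondCountableTopology X] [RegularSpace X] :
    ∃ 𝔅 : Set (Set X), 𝔅.Countable ∧ (∀ B ∈ 𝔅, IsOpen B ∧ IsConnected B) ∧
      ∀ (x : X) (U : Set X), IsOpen U → x ∈ U → ∃ B ∈ 𝔅, x ∈ B ∧ closure B ⊆ U := by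
  obtain ⟨s, hst, hs, hb⟩ := (TopologicalSpace.IsTopologicalBasis.isOpen_isPreconnected
    (α := X)).exists_countable
  refine ⟨{B ∈ s | B.Nonempty}, hs.mono fun B hB => hB.1,
    fun B hB => ⟨(hst hB.1).1, hB.2, (hst hB.1).2⟩, ?_⟩
  intro x U hU hx
  obtain ⟨W, hW, hWc, hWU⟩ := exists_mem_nhds_isClosed_subset (hU.mem_nhds hx)
  obtain ⟨B, hB, hxB, hBW⟩ := hb.mem_nhds_iff.1 hW
  exact ⟨B, ⟨hB, ⟨x, hxB⟩⟩, hxB, (closure_minimal hBW hWc).trans hWU⟩

/-- Shrinking a link so that it avoids a neighbourhood of a point. -/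
theorem shrink_avoid {Y : Type*} [TopologicalSpace Y] [T3Space Y] [LocallyConnectedSpace Y]
    {C P R : Set Y} (hC : IsOpen C) (hCc : IsConnected C) {b : Y} (hP : IsOpen P) (hbP : b ∈ P)
    (hCP : (C ∩ P).Nonempty) (hbR : b ∉ R) (hCR : (C ∩ R).Nonempty) :
    ∃ V, IsOpen V ∧ IsConnected V ∧ closure V ⊆ C ∧ b ∉ closure V ∧ (V ∩ P).Nonempty ∧
      (V ∩ R).Nonempty := by
  obtain ⟨a, haC, haR⟩ := hCR
  have hab : a ≠ b := by
    rintro rfl
    exact hbR haR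
  by_cases hbC : b ∈ C
  · obtain ⟨q, ⟨-, hq⟩, hqK⟩ := exists_frontier hCc.isPreconnected hC (isClosed_singleton (x := b))
      haC (by simpa using hab) ⟨b, hbC, rfl⟩
    rw [mem_singleton_iff] at hq
    subst hq
    obtain ⟨z, hzP, hzK⟩ := mem_closure_iff.1 hqK P hP hbP
    have hKo : IsOpen (connectedComponentIn (C \ {q}) a) :=
      (hC.sdiff isClosed_singleton).connectedComponentIn
    obtain ⟨V, h1, h2, h3, h4, h5⟩ := shrink hKo isPreconnected_connectedComponentIn hzK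
      (mem_connectedComponentIn (F := C \ {q}) ⟨haC, by simpa using hab⟩)
    refine ⟨V, h1, h2, fun z hz => (connectedComponentIn_subset _ _ (h3 hz)).1, ?_, ⟨z, h4, hzP⟩,
      ⟨a, h5, haR⟩⟩
    intro hq
    exact (connectedComponentIn_subset _ _ (h3 hq)).2 rfl
  · obtain ⟨z, hzC, hzP⟩ := hCP
    obtain ⟨V, h1, h2, h3, h4, h5⟩ := shrink hC hCc.isPreconnected hzC haC
    exact ⟨V, h1, h2, h3, fun h => hbC (h3 h), ⟨z, h4, hzP⟩, ⟨a, h5, haR⟩⟩

variable {X : Type*} [MetricSpace X] [LocallyConnectedSpace X] [SecondCountableTopology X]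

/-- no countable set off `b` cuts `b` from `A` in `G` -/
def Joined (A : Set X) (b : X) (G : Set X) : Prop :=
  ∀ E : Set X, E.Countable → b ∉ E → ∃ N ⊆ G \ E, IsConnected N ∧ b ∈ N ∧ (N ∩ A).Nonempty

theorem step (hX : HLC X) {A : Set X} {b : X} (hb : b ∉ A) {G : Set X} (hG : IsOpen G)
    (hJ : Joined A b G) {O : Set X} (hO : IsOpen O) (hbO : b ∈ O) :
    ∃ T, IsOpen T ∧ IsConnected T ∧ T ⊆ G ∧ (T ∩ O).Nonempty ∧ (T ∩ A).Nonempty ∧
      b ∉ closure T ∧ Joined A b (G \ closure T) := by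
  classical
  by_contra hno
  push Not at hno
  have hno' : ∀ T, (IsOpen T ∧ IsConnected T ∧ T ⊆ G ∧ (T ∩ O).Nonempty ∧ (T ∩ A).Nonempty ∧
      b ∉ closure T) → ∃ E : Set X, E.Countable ∧ b ∉ E ∧ ∀ N ⊆ (G \ closure T) \ E,
        IsConnected N → b ∈ N → N ∩ A = ∅ := by
    rintro T ⟨h1, h2, h3, h4, h5, h6⟩
    have h7 := hno T h1 h2 h3 h4 h5 h6
    rw [Joined] at h7
    push Not at h7
    obtain ⟨E, hE, hbE, hEN⟩ := h7
    exact ⟨E, hE, hbE, fun N hN hNc hbN => hEN N hN hNc hbN⟩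
  choose! ET hETc hETb hET using hno'
  obtain ⟨𝔅, h𝔅c, h𝔅, h𝔅b⟩ := exists_basis X
  -- the countable family of finite unions
  let 𝒢 : Set (Set X) := {T | (∃ t : Set (Set X), t.Finite ∧ t ⊆ 𝔅 ∧ T = ⋃₀ t) ∧
    (IsOpen T ∧ IsConnected T ∧ T ⊆ G ∧ (T ∩ O).Nonempty ∧ (T ∩ A).Nonempty ∧ b ∉ closure T)}
  have h𝒢c : 𝒢.Countable := by
    apply ((countable_ofPred_finite_subset h𝔅c).image sUnion).mono
    rintro T ⟨⟨t, ht, htB, rfl⟩, -⟩
    exact ⟨t, ⟨ht, htB⟩, rfl⟩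
  let E : Set X := ⋃ T ∈ 𝒢, ET T
  have hEc : E.Countable := h𝒢c.biUnion fun T hT => hETc T hT.2
  have hbE : b ∉ E := by
    intro h
    obtain ⟨T, hT, hbT⟩ := mem_iUnion₂.1 h
    exact hETb T hT.2 hbT
  obtain ⟨N, hN, hNc, hbN, hNA⟩ := hJ E hEc hbE
  let Y : Set X := connectedComponentIn (G \ E) b
  have hbGE : b ∈ G \ E := hN hbN
  have hYGE : Y ⊆ G \ E := connectedComponentIn_subset _ _
  have hYc : IsConnected Y := isConnected_connectedComponentIn_iff.2 hbGE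
  have hbY : b ∈ Y := mem_connectedComponentIn hbGE
  have hNY : ∀ N ⊆ G \ E, IsConnected N → b ∈ N → N ⊆ Y := fun N hN hNc hbN =>
    hNc.isPreconnected.subset_connectedComponentIn hbN hN
  have : LocallyConnectedSpace Y := hX Y hYc
  have : PreconnectedSpace Y := Subtype.preconnectedSpace hYc.isPreconnected
  let b' : Y := ⟨b, hbY⟩
  let P : Set Y := Subtype.val ⁻¹' O
  let R : Set Y := Subtype.val ⁻¹' A
  have hP : IsOpen P := hO.preimage continuous_subtype_val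
  have hbP : b' ∈ P := hbO
  have hbR : b' ∉ R := hb
  have hRne : R.Nonempty := by
    obtain ⟨a, haN, haA⟩ := hNA
    exact ⟨⟨a, hNY N hN hNc hbN haN⟩, haA⟩
  -- links avoiding a given point
  have hlink : ∀ y : Y, ∃ N, IsOpen N ∧ IsConnected N ∧ (N ∩ P).Nonempty ∧ (N ∩ R).Nonempty ∧
      y ∉ closure N := by
    intro y
    by_cases hyb : y = b'
    · obtain ⟨V, h1, h2, h3, h4, h5, h6⟩ := shrink_avoid (C := (univ : Set Y)) isOpen_univ
        ⟨⟨b', trivial⟩, isPreconnected_univ⟩ hP hbP (by simpa using ⟨b', hbP⟩) hbR (by simpa using hRne)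
      exact ⟨V, h1, h2, h5, h6, by rw [hyb]; exact h4⟩
    · have hby : b ≠ y := fun h => hyb (Subtype.ext h.symm)
      obtain ⟨N₁, hN₁, hN₁c, hbN₁, a, haN₁, haA⟩ := hJ (E ∪ {(y : X)})
        (hEc.union (countable_singleton _)) (by
          rintro (h | h)
          · exact hbE h
          · exact hby h)
      have hN₁Y : N₁ ⊆ Y := hNY N₁ (fun z hz => ⟨(hN₁ hz).1, fun h => (hN₁ hz).2 (Or.inl h)⟩)
        hN₁c hbN₁
      have hpre : IsPreconnected (Subtype.val ⁻¹' N₁ : Set Y) := by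
        rw [← IsInducing.subtypeVal.isPreconnected_image, Subtype.image_preimage_coe,
          inter_eq_self_of_subset_right hN₁Y]
        exact hN₁c.isPreconnected
      have hsub : (Subtype.val ⁻¹' N₁ : Set Y) ⊆ connectedComponentIn ({y}ᶜ) b' := by
        apply hpre.subset_connectedComponentIn (show b' ∈ _ from hbN₁)
        intro z hz hzy
        rw [mem_singleton_iff] at hzy
        subst hzy
        exact (hN₁ hz).2 (Or.inr rfl)
      have hKo : IsOpen (connectedComponentIn ({y}ᶜ : Set Y) b') :=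
        isClosed_singleton.isOpen_compl.connectedComponentIn
      obtain ⟨V, h1, h2, h3, h4, h5⟩ := shrink hKo isPreconnected_connectedComponentIn
        (hsub (show b' ∈ _ from hbN₁)) (hsub (show (⟨a, hN₁Y haN₁⟩ : Y) ∈ _ from haN₁))
      refine ⟨V, h1, h2, ⟨b', h4, hbP⟩, ⟨_, h5, haA⟩, ?_⟩
      intro hy
      exact connectedComponentIn_subset _ _ (h3 hy) rfl
  obtain ⟨C, D, hC, hCc, hD, hDc, hCD, hCP, hCR, hDP, hDR⟩ := menger hP ⟨b', hbP⟩ hRne hlink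
  obtain ⟨Z₁, hZ₁, hZ₁c, hZ₁C, hbZ₁, hZ₁P, hZ₁R⟩ := shrink_avoid hC hCc hP hbP hCP hbR hCR
  obtain ⟨Z₂, hZ₂, hZ₂c, hZ₂D, hbZ₂, hZ₂P, hZ₂R⟩ := shrink_avoid hD hDc hP hbP hDP hbR hDR
  have hZZ : ∀ y, y ∈ closure Z₁ → y ∉ closure Z₂ := fun y h1 h2 =>
    Set.disjoint_left.1 hCD (hZ₁C h1) (hZ₂D h2)
  -- the main claim
  have claim : ∀ Z : Set Y, IsOpen Z → IsConnected Z → b' ∉ closure Z → (Z ∩ P).Nonempty →
      (Z ∩ R).Nonempty → ∀ y ∈ connectedComponentIn ((closure Z)ᶜ) b', y ∉ R := by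
    intro Z hZ hZc hbZ ⟨z₁, hz₁Z, hz₁P⟩ ⟨z₂, hz₂Z, hz₂R⟩ y hy hyR
    let V : Set Y := connectedComponentIn ((closure Z)ᶜ) b'
    have hVc : IsConnected V := isConnected_connectedComponentIn_iff.2 hbZ
    have hbV : b' ∈ V := mem_connectedComponentIn hbZ
    let V₀ : Set X := Subtype.val '' V
    have hV₀c : IsConnected V₀ := hVc.image _ continuous_subtype_val.continuousOn
    have hbV₀ : b ∈ V₀ := ⟨b', hbV, rfl⟩
    have hZ₀c : IsConnected (Subtype.val '' Z : Set X) :=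
      hZc.image _ continuous_subtype_val.continuousOn
    have hZV : ∀ z ∈ Z, (z : X) ∈ (closure V₀)ᶜ := by
      intro z hz hcl
      obtain ⟨W, hW, hWZ⟩ := isOpen_induced_iff.1 hZ
      have hzW : (z : X) ∈ W := by
        have : z ∈ Subtype.val ⁻¹' W := by rw [hWZ]; exact hz
        exact this
      obtain ⟨w, hwW, v, hvV, rfl⟩ := mem_closure_iff.1 hcl W hW hzW
      have hvZ : v ∈ Z := by
        rw [← hWZ]
        exact hwW
      exact connectedComponentIn_subset _ _ hvV (subset_closure hvZ)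
    obtain ⟨T, ⟨⟨t, ht, htB, rfl⟩, hTo, hTc, hTcl⟩, hz₁T, hz₂T⟩ := chain
      (fun T : Set X => (∃ t : Set (Set X), t.Finite ∧ t ⊆ 𝔅 ∧ T = ⋃₀ t) ∧ IsOpen T ∧
        IsConnected T ∧ closure T ⊆ G ∩ (closure V₀)ᶜ) (fun V h => h.2.1)
      (by
        rintro V W ⟨⟨t, ht, htB, rfl⟩, h1, h2, h3⟩ ⟨⟨s, hs, hsB, rfl⟩, k1, k2, k3⟩ hne
        refine ⟨⟨t ∪ s, ht.union hs, union_subset htB hsB, (sUnion_union _ _).symm⟩,
          h1.union k1, IsConnected.union hne h2 k2, ?_⟩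
        rw [closure_union]
        exact union_subset h3 k3) hZ₀c.isPreconnected
      (by
        rintro z ⟨z', hz', rfl⟩
        obtain ⟨B, hB, hzB, hBcl⟩ := h𝔅b (z' : X) (G ∩ (closure V₀)ᶜ)
          (hG.inter isClosed_closure.isOpen_compl) ⟨(hYGE z'.2).1, hZV z' hz'⟩
        exact ⟨B, hzB, ⟨{B}, finite_singleton B, by simpa using hB, by simp⟩, (h𝔅 B hB).1,
          (h𝔅 B hB).2, hBcl⟩)
      (show (z₁ : X) ∈ Subtype.val '' Z from ⟨z₁, hz₁Z, rfl⟩)
      (show (z₂ : X) ∈ Subtype.val '' Z from ⟨z₂, hz₂Z, rfl⟩)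
    have hbT : b ∉ closure (⋃₀ t) := fun h => (hTcl h).2 (subset_closure hbV₀)
    have hTprop : IsOpen (⋃₀ t) ∧ IsConnected (⋃₀ t) ∧ ⋃₀ t ⊆ G ∧ ((⋃₀ t) ∩ O).Nonempty ∧
        ((⋃₀ t) ∩ A).Nonempty ∧ b ∉ closure (⋃₀ t) :=
      ⟨hTo, hTc, fun z hz => (hTcl (subset_closure hz)).1, ⟨z₁, hz₁T, hz₁P⟩, ⟨z₂, hz₂T, hz₂R⟩, hbT⟩
    have hTG : ⋃₀ t ∈ 𝒢 := ⟨⟨t, ht, htB, rfl⟩, hTprop⟩
    have hV₀sub : V₀ ⊆ (G \ closure (⋃₀ t)) \ ET (⋃₀ t) := by
      rintro z ⟨v, hv, rfl⟩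
      refine ⟨⟨(hYGE v.2).1, fun h => (hTcl h).2 (subset_closure ⟨v, hv, rfl⟩)⟩, fun h => ?_⟩
      exact (hYGE v.2).2 (mem_iUnion₂.2 ⟨_, hTG, h⟩)
    have h0 := hET _ hTprop V₀ hV₀sub hV₀c hbV₀
    have : (y : X) ∈ V₀ ∩ A := ⟨⟨y, hy, rfl⟩, hyR⟩
    rw [h0] at this
    exact this
  let V₁ : Set Y := connectedComponentIn ((closure Z₁)ᶜ) b'
  let V₂ : Set Y := connectedComponentIn ((closure Z₂)ᶜ) b'
  have hV₁R := claim Z₁ hZ₁ hZ₁c hbZ₁ hZ₁P hZ₁R
  have hV₂R := claim Z₂ hZ₂ hZ₂c hbZ₂ hZ₂P hZ₂R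
  have hV₁o : IsOpen V₁ := isClosed_closure.isOpen_compl.connectedComponentIn
  have hV₂o : IsOpen V₂ := isClosed_closure.isOpen_compl.connectedComponentIn
  have hclosed : IsClosed (V₁ ∩ V₂) := by
    rw [← closure_subset_iff_isClosed]
    intro y hy
    have hy₁ : y ∈ closure V₁ := closure_mono inter_subset_left hy
    have hy₂ : y ∈ closure V₂ := closure_mono inter_subset_right hy
    constructor
    · by_contra hyV
      have h1 : y ∈ closure Z₁ := by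
        by_contra h
        exact hyV (closure_component_inter isClosed_closure.isOpen_compl hy₁ h)
      have h2 : y ∈ V₂ := closure_component_inter isClosed_closure.isOpen_compl hy₂ (hZZ y h1)
      obtain ⟨z, hz1, hz2⟩ := mem_closure_iff.1 h1 V₂ hV₂o h2
      have h3 : Z₁ ⊆ connectedComponentIn ((closure Z₂)ᶜ) z :=
        hZ₁c.isPreconnected.subset_connectedComponentIn hz2
          (fun w hw hw' => hZZ w (subset_closure hw) hw')
      have h4 : connectedComponentIn ((closure Z₂)ᶜ) b' = connectedComponentIn ((closure Z₂)ᶜ) z :=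
        connectedComponentIn_eq hz1
      obtain ⟨r, hr1, hr2⟩ := hZ₁R
      exact hV₂R r (by rw [h4]; exact h3 hr1) hr2
    · by_contra hyV
      have h1 : y ∈ closure Z₂ := by
        by_contra h
        exact hyV (closure_component_inter isClosed_closure.isOpen_compl hy₂ h)
      have h2 : y ∈ V₁ := closure_component_inter isClosed_closure.isOpen_compl hy₁
        (fun h => hZZ y h h1)
      obtain ⟨z, hz1, hz2⟩ := mem_closure_iff.1 h1 V₁ hV₁o h2
      have h3 : Z₂ ⊆ connectedComponentIn ((closure Z₁)ᶜ) z :=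
        hZ₂c.isPreconnected.subset_connectedComponentIn hz2
          (fun w hw hw' => hZZ w hw' (subset_closure hw))
      have h4 : connectedComponentIn ((closure Z₁)ᶜ) b' = connectedComponentIn ((closure Z₁)ᶜ) z :=
        connectedComponentIn_eq hz1
      obtain ⟨r, hr1, hr2⟩ := hZ₂R
      exact hV₁R r (by rw [h4]; exact h3 hr1) hr2
  have huniv : V₁ ∩ V₂ = univ := IsClopen.eq_univ ⟨hclosed, hV₁o.inter hV₂o⟩
    ⟨b', mem_connectedComponentIn hbZ₁, mem_connectedComponentIn hbZ₂⟩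
  obtain ⟨r, hr⟩ := hRne
  have hrV : r ∈ V₁ ∩ V₂ := by
    rw [huniv]
    trivial
  exact hV₁R r hrV.1 hr

end Pool.Agent.R815.HLC
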